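import Mathlib
import Pool.Agent.H734R3.LV.Good

/-!
# Torus curves in affine multi-cyclic covers of log Calabi-Yau or log Fano type
-/

set_option autoImplicit false

namespace Pool.Agent.H734R3.AF

open MvPolynomial Pool.Agent.H734R3.LV

/-- Laurent polynomial functions on `ℂ \ {0}` -/
def Lau (T : ℂ → ℂ) : Prop :=
  ∃ (A : Polynomial ℂ) (k : ℕ), ∀ u : ℂ, u ≠ 0 → T u = A.eval u * (u⁻¹) ^ k

theorem Lau.const (c : ℂ) : Lau fun _ => c := ⟨Polynomial.C c, 0, fun u _ => by simp⟩

theorem Lau.id : Lau fun u => u := ⟨Polynomial.X, 0, fun u _ => by simp⟩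

theorem Lau.inv : Lau fun u => u⁻¹ := ⟨1, 1, fun u _ => by simp⟩

theorem Lau.add {S T : ℂ → ℂ} (hS : Lau S) (hT : Lau T) : Lau fun u => S u + T u := by
  obtain ⟨A, k, hA⟩ := hS
  obtain ⟨B, l, hB⟩ := hT
  refine ⟨A * Polynomial.X ^ l + B * Polynomial.X ^ k, k + l, fun u hu => ?_⟩
  show S u + T u = _
  rw [hA u hu, hB u hu, Polynomial.eval_add, Polynomial.eval_mul, Polynomial.eval_mul,
    Polynomial.eval_pow, Polynomial.eval_pow, Polynomial.eval_X, pow_add]
  have h1 : u ^ l * (u⁻¹) ^ l = 1 := by rw [← mul_pow, mul_inv_cancel₀ hu, one_pow]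
  have h2 : u ^ k * (u⁻¹) ^ k = 1 := by rw [← mul_pow, mul_inv_cancel₀ hu, one_pow]
  linear_combination (-(A.eval u * (u⁻¹) ^ k)) * h1 - (B.eval u * (u⁻¹) ^ l) * h2

theorem Lau.mul {S T : ℂ → ℂ} (hS : Lau S) (hT : Lau T) : Lau fun u => S u * T u := by
  obtain ⟨A, k, hA⟩ := hS
  obtain ⟨B, l, hB⟩ := hT
  refine ⟨A * B, k + l, fun u hu => ?_⟩
  show S u * T u = _
  rw [hA u hu, hB u hu, Polynomial.eval_mul, pow_add]
  ring

theorem Lau.pow {S : ℂ → ℂ} (hS : Lau S) (n : ℕ) : Lau fun u => S u ^ n := by
  induction n with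
  | zero => simpa using Lau.const 1
  | succ n ih =>
    simp only [pow_succ]
    exact ih.mul hS

theorem Lau.prod {ι : Type*} (s : Finset ι) (S : ι → ℂ → ℂ) (hS : ∀ i, Lau (S i)) :
    Lau fun u => ∏ i ∈ s, S i u := by
  classical
  induction s using Finset.induction_on with
  | empty => simpa using Lau.const 1
  | insert a s ha ih =>
    simp only [Finset.prod_insert ha]
    exact (hS a).mul ih

theorem Lau.lin {T : ℂ → ℂ} (hT : Lau T) (a b : ℂ) : Lau fun u => a + b * T u :=
  (Lau.const a).add ((Lau.const b).mul hT)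

theorem Lau.congr {S T : ℂ → ℂ} (hS : Lau S) (h : ∀ u, u ≠ 0 → T u = S u) : Lau T := by
  obtain ⟨A, k, hA⟩ := hS
  exact ⟨A, k, fun u hu => by rw [h u hu, hA u hu]⟩

/-- the data of a torus curve through the point `(p, w0)` -/
def TorusCurve {n r : ℕ} (m : Fin r → ℕ) (f : Fin r → MvPolynomial (Fin n) ℂ)
    (g : MvPolynomial (Fin n) ℂ) (p : Fin n → ℂ) (w0 : Fin r → ℂ) : Prop :=
  ∃ (v : Fin n → ℂ) (T : ℂ → ℂ) (Y : Fin r → ℂ → ℂ) (Z : ℂ → ℂ), v ≠ 0 ∧
    Lau T ∧ (∀ i, Lau (Y i)) ∧ Lau Z ∧ (∃ u u', u ≠ 0 ∧ u' ≠ 0 ∧ T u ≠ T u') ∧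
    (∀ u, u ≠ 0 → (∀ i, Y i u ^ m i = eval (fun j => p j + T u * v j) (f i)) ∧
      Z u * eval (fun j => p j + T u * v j) g = 1) ∧
    ∃ u0, u0 ≠ 0 ∧ T u0 = 0 ∧ ∀ i, Y i u0 = w0 i

/-- from the pattern of slots -/
theorem slots_line {n r q : ℕ} (m : Fin r → ℕ) (hm0 : ∀ i, m i ≠ 0)
    (f : Fin r → MvPolynomial (Fin n) ℂ)
    (e : Fin r → ℕ) (hdeg : ∀ i, (f i).totalDegree ≤ m i * e i)
    (he : ∑ i, (m i - 1) * e i < n + q)
    (b : Fin q → Σ i : Fin r, Fin (e i)) (mult : (Σ i : Fin r, Fin (e i)) ⊕ Fin q → ℕ)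
    (hmult : ∀ s, 0 < mult s)
    (hsum : ∀ j, mult (Sum.inl j) + ∑ a, (if b a = j then mult (Sum.inr a) else 0) = m j.1)
    (p : Fin n → ℂ) (hp : ∀ i, eval p (f i) ≠ 0) :
    ∃ v : Fin n → ℂ, v ≠ 0 ∧ ∃ c : (Σ i : Fin r, Fin (e i)) ⊕ Fin q → ℂ, ∀ i t,
      eval (fun j => p j + t * v j) (f i) = eval p (f i) *
        ∏ j : (Σ i : Fin r, Fin (e i)) with j.1 = i, ((1 + c (Sum.inl j) * t) ^ mult (Sum.inl j) *
          ∏ a, (if b a = j then (1 + c (Sum.inr a) * t) ^ mult (Sum.inr a) else 1)) := by
  classical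
  let J := Σ i : Fin r, Fin (e i)
  let own : J ⊕ Fin q → Fin r := fun s => (slot b s).1
  have hcardfib : ∀ i, (Finset.univ.filter fun j : J => j.1 = i).card = e i := by
    intro i
    rw [Finset.card_filter, Fintype.sum_sigma, Finset.sum_eq_single i]
    · simp
    · intro b _ hb
      simp [hb]
    · simp
  have hown : ∀ i, ∑ s with own s = i, mult s = m i * e i := by
    intro i
    have h1 : ∑ s with own s = i, mult s = ∑ j : J with j.1 = i, ∑ s with slot b s = j, mult s :=
      prod_own (fun j : J => j.1) (M := Multiplicative ℕ) b mult i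
    have h2 : ∑ j : J with j.1 = i, ∑ s with slot b s = j, mult s = ∑ j : J with j.1 = i, m i := by
      refine Finset.sum_congr rfl fun j hj => ?_
      rw [sum_slot b j mult, hsum j]
      have : j.1 = i := by simpa using hj
      rw [this]
    rw [h1, h2, Finset.sum_const, hcardfib, smul_eq_mul, mul_comm]
  have htot : ∑ s, mult s = ∑ i, m i * e i := by
    rw [← Finset.sum_fiberwise Finset.univ own mult, Finset.sum_congr rfl fun i _ => hown i]
  have hcard : ∑ s, mult s < n + Fintype.card (J ⊕ Fin q) := by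
    rw [htot]
    simp only [J, Fintype.card_sum, Fintype.card_sigma, Fintype.card_fin]
    have h3 : ∑ i, m i * e i = ∑ i, (m i - 1) * e i + ∑ i, e i := by
      rw [← Finset.sum_add_distrib]
      refine Finset.sum_congr rfl fun i _ => ?_
      obtain ⟨m', hm'⟩ : ∃ m', m i = m' + 1 := ⟨m i - 1, by have := hm0 i; omega⟩
      rw [hm', Nat.add_sub_cancel]
      ring
    omega
  obtain ⟨v, hv, c, hc⟩ := exists_line f own mult hmult (fun i => (hdeg i).trans (hown i).ge)
    hcard p hp
  refine ⟨v, hv, c, fun i t => ?_⟩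
  rw [hc]
  congr 1
  refine Eq.trans (prod_own (fun j : J => j.1) b (fun s => (1 + c s * t) ^ mult s) i) ?_
  exact Finset.prod_congr rfl fun j _ => prod_slot b j _

/-- a square root of `(1 + a T) (1 + b T)` on the torus -/
theorem exists_sqrt (a b : ℂ) : ∃ T s : ℂ → ℂ, Lau T ∧ Lau s ∧
    (∃ u u', u ≠ 0 ∧ u' ≠ 0 ∧ T u ≠ T u') ∧
    (∀ u, u ≠ 0 → s u ^ 2 = (1 + a * T u) * (1 + b * T u)) ∧
    ∃ u0, u0 ≠ 0 ∧ T u0 = 0 ∧ s u0 = 1 := by
  by_cases ha : a = 0
  · subst ha
    by_cases hb : b = 0
    · subst hb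
      refine ⟨fun u => u - 1, fun _ => 1, ?_, Lau.const 1, ⟨1, 2, by norm_num, by norm_num,
        by norm_num⟩, fun u _ => by ring, 1, one_ne_zero, by ring, rfl⟩
      exact ((Lau.id).add (Lau.const (-1))).congr fun u _ => by ring
    · refine ⟨fun u => (u ^ 2 - 1) / b, fun u => u, ?_, Lau.id, ⟨1, 2, by norm_num, by norm_num,
        ?_⟩, fun u _ => ?_, 1, one_ne_zero, by simp, rfl⟩
      · exact (((Lau.id.pow 2).add (Lau.const (-1))).mul (Lau.const b⁻¹)).congr fun u _ => by
          rw [div_eq_mul_inv]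
          ring
      · norm_num
        exact fun h0 => div_ne_zero three_ne_zero hb h0.symm
      · field_simp
        ring
  · by_cases hb : b = 0
    · subst hb
      refine ⟨fun u => (u ^ 2 - 1) / a, fun u => u, ?_, Lau.id, ⟨1, 2, by norm_num, by norm_num,
        ?_⟩, fun u _ => ?_, 1, one_ne_zero, by simp, rfl⟩
      · exact (((Lau.id.pow 2).add (Lau.const (-1))).mul (Lau.const a⁻¹)).congr fun u _ => by
          rw [div_eq_mul_inv]
          ring
      · norm_num
        exact fun h0 => div_ne_zero three_ne_zero ha h0.symm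
      · field_simp
        ring
    · obtain ⟨α, hα⟩ := IsAlgClosed.exists_pow_nat_eq (a * b) (n := 2) (by norm_num)
      have hα0 : α ≠ 0 := by
        rintro rfl
        simp at hα
        exact hα.elim ha hb
      set β := (a + b) / (2 * α) with hβ
      have hβα : 2 * α * β = a + b := by rw [hβ]; field_simp
      set γ := 1 - β ^ 2 with hγ
      set T : ℂ → ℂ := fun u => (γ * u⁻¹ - u - 2 * β) / (2 * α) with hT
      set s : ℂ → ℂ := fun u => (u + γ * u⁻¹) / 2 with hs
      have hTL : Lau T := by
        refine (((((Lau.const γ).mul Lau.inv).add ((Lau.const (-1)).mul Lau.id)).add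
          (Lau.const (-(2 * β)))).mul (Lau.const (2 * α)⁻¹)).congr fun u _ => ?_
        simp only [hT, div_eq_mul_inv]
        ring
      have hsL : Lau s := by
        refine ((Lau.id.add ((Lau.const γ).mul Lau.inv)).mul (Lau.const (2 : ℂ)⁻¹)).congr
          fun u _ => ?_
        simp only [hs, div_eq_mul_inv]
      have hsq : ∀ u, u ≠ 0 → s u ^ 2 = (1 + a * T u) * (1 + b * T u) := by
        intro u hu
        have h1 : (1 + a * T u) * (1 + b * T u) = (α * T u + β) ^ 2 + γ := by
          rw [hγ]
          linear_combination (-(T u) ^ 2) * hα - T u * hβα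
        have h2 : α * T u + β = (γ * u⁻¹ - u) / 2 := by
          simp only [hT]
          field_simp
          ring
        rw [h1, h2]
        simp only [hs]
        field_simp
        ring
      obtain ⟨u0, hu0, hTu0⟩ : ∃ u0, u0 ≠ 0 ∧ T u0 = 0 := by
        by_cases h1 : -β + 1 = 0
        · refine ⟨-β - 1, ?_, ?_⟩
          · have : β = 1 := by linear_combination -h1
            rw [this]
            norm_num
          · have hβ1 : β = 1 := by linear_combination -h1
            simp only [hT, hγ, hβ1]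
            norm_num
        · refine ⟨-β + 1, h1, ?_⟩
          simp only [hT, hγ]
          field_simp
          ring
      have hs1 : s u0 ^ 2 = 1 := by
        rw [hsq u0 hu0, hTu0]
        ring
      have hs0 : s u0 ≠ 0 := by
        intro h
        rw [h] at hs1
        norm_num at hs1
      refine ⟨T, fun u => s u0 * s u, hTL, (Lau.const _).mul hsL, ?_, ?_, u0, hu0, hTu0, ?_⟩
      · by_contra hcon
        push Not at hcon
        have e1 := hcon 1 (-1) one_ne_zero (by norm_num)
        have e2 := hcon 1 2 one_ne_zero two_ne_zero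
        simp only [hT] at e1 e2
        field_simp at e1 e2
        have e3 : γ = 1 := by linear_combination e1 / 2
        rw [e3] at e2
        have e4 : (3 : ℂ) = 0 := by linear_combination e2
        norm_num at e4
      · intro u hu
        rw [mul_pow, hs1, one_mul, hsq u hu]
      · show s u0 * s u0 = 1
        rw [← pow_two, hs1]

theorem lau_sub_one : Lau fun u => u - 1 :=
  ((Lau.id).add (Lau.const (-1))).congr fun u _ => by ring

/-- the torus curve -/
theorem exists_torus {n r : ℕ} (hn : 1 ≤ n) (m : Fin r → ℕ) (hm : ∀ i, 2 ≤ m i)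
    (f : Fin r → MvPolynomial (Fin n) ℂ) (g : MvPolynomial (Fin n) ℂ)
    (e : Fin r → ℕ) (d : ℕ) (hdeg : ∀ i, (f i).totalDegree ≤ m i * e i)
    (hg : g.totalDegree ≤ d) (he : ∑ i, (m i - 1) * e i + d ≤ n)
    (heq : ∑ i, (m i - 1) * e i = n → ∃ i, e i ≠ 0 ∧ 2 ∣ m i)
    (p : Fin n → ℂ) (hp : ∀ i, eval p (f i) ≠ 0) (hgp : eval p g ≠ 0) (w0 : Fin r → ℂ)
    (hw0 : ∀ i, w0 i ^ m i = eval p (f i)) : TorusCurve m f g p w0 := by
  classical
  have hm0 : ∀ i, m i ≠ 0 := fun i => by have := hm i; omega
  rcases Nat.eq_zero_or_pos d with hd | hd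
  · -- `g` is constant
    subst hd
    have hgC : g = C (coeff 0 g) := totalDegree_eq_zero_iff_eq_C.1 (Nat.le_zero.1 hg)
    have hgv : ∀ x, eval x g = eval p g := by
      intro x
      rw [hgC]
      simp
    rw [add_zero] at he
    rcases Nat.lt_or_ge (∑ i, (m i - 1) * e i) n with hlt | hge
    · obtain ⟨v, hv, c, hc⟩ := slots_line (q := 0) m hm0 f e hdeg (by omega)
        (fun a => a.elim0) (Sum.elim (fun j => m j.1) fun a => a.elim0)
        (by
          rintro (j | j)
          · exact Nat.pos_of_ne_zero (hm0 _)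
          · exact j.elim0) (by intro j; simp) p hp
      refine ⟨v, fun u => u - 1, fun i u => w0 i * ∏ j : (Σ i : Fin r, Fin (e i)) with j.1 = i,
        (1 + c (Sum.inl j) * (u - 1)), fun _ => (eval p g)⁻¹, hv, lau_sub_one, fun i => ?_,
        Lau.const _, ⟨1, 2, by norm_num, by norm_num, by norm_num⟩, fun u _ => ⟨fun i => ?_, ?_⟩,
        1, one_ne_zero, by norm_num, fun i => by simp⟩
      · exact (Lau.const _).mul (Lau.prod _ _ fun j => lau_sub_one.lin 1 _)
      · rw [hc, mul_pow, hw0, ← Finset.prod_pow]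
        congr 1
        refine Finset.prod_congr rfl fun j hj => ?_
        have hji : j.1 = i := by simpa using hj
        simp [hji]
      · exact (congrArg ((eval p g)⁻¹ * ·) (hgv _)).trans (inv_mul_cancel₀ hgp)
    · have hSn : ∑ i, (m i - 1) * e i = n := le_antisymm he hge
      obtain ⟨i0, hi0, μ, hμ⟩ := heq hSn
      have hm2 := hm i0
      let b : Σ i : Fin r, Fin (e i) := ⟨i0, ⟨0, Nat.pos_of_ne_zero hi0⟩⟩
      obtain ⟨v, hv, c, hc⟩ := slots_line (q := 1) m hm0 f e hdeg (by omega)
        ![b] (Sum.elim (fun j => if j = b then μ else m j.1) ![μ])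
        (by
          rintro (j | j)
          · simp only [Sum.elim_inl]
            have := hm0 j.1
            split_ifs <;> omega
          · fin_cases j
            simp
            omega) (by
          intro j
          simp only [Sum.elim_inl, Sum.elim_inr, Fin.sum_univ_one, Matrix.cons_val_zero]
          by_cases hj : b = j
          · subst hj
            simp [b]
            omega
          · have hj' : ¬ j = b := fun h => hj h.symm
            simp [hj, hj']) p hp
      obtain ⟨T, s, hT, hs, hnc, hsq, u0, hu0, hTu0, hsu0⟩ :=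
        exists_sqrt (c (Sum.inl b)) (c (Sum.inr 0))
      refine ⟨v, T, fun i u => w0 i * ∏ j : (Σ i : Fin r, Fin (e i)) with j.1 = i,
        (if j = b then s u else 1 + c (Sum.inl j) * T u), fun _ => (eval p g)⁻¹, hv, hT,
        fun i => ?_, Lau.const _, hnc, fun u hu => ⟨fun i => ?_, ?_⟩, u0, hu0, hTu0, fun i => ?_⟩
      · refine (Lau.const _).mul (Lau.prod _
          (fun j u => if j = b then s u else 1 + c (Sum.inl j) * T u) fun j => ?_)
        beta_reduce
        split_ifs
        · exact hs
        · exact hT.lin 1 _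
      · rw [hc, mul_pow, hw0, ← Finset.prod_pow]
        congr 1
        refine Finset.prod_congr rfl fun j hj => ?_
        have hji : j.1 = i := by simpa using hj
        by_cases hjb : j = b
        · subst hjb
          have hi : i0 = i := hji
          subst hi
          simp only [Sum.elim_inl, Sum.elim_inr, Fin.prod_univ_one, if_true, Matrix.cons_val_zero]
          rw [hμ, pow_mul, hsq u hu, mul_pow]
        · have hjb' : ¬ b = j := fun h => hjb h.symm
          simp [hjb, hjb', hji]
      · exact (congrArg ((eval p g)⁻¹ * ·) (hgv _)).trans (inv_mul_cancel₀ hgp)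
      · simp [hTu0, hsu0]
  · -- one more root for `g`
    let J := Σ i : Fin r, Fin (e i)
    let f' : Fin (r + 1) → MvPolynomial (Fin n) ℂ := Fin.cons g f
    let own : J ⊕ Unit → Fin (r + 1) := Sum.elim (fun j => j.1.succ) fun _ => 0
    let mult : J ⊕ Unit → ℕ := Sum.elim (fun j => m j.1) fun _ => d
    have hcardfib : ∀ i, (Finset.univ.filter fun j : J => j.1 = i).card = e i := by
      intro i
      rw [Finset.card_filter, Fintype.sum_sigma, Finset.sum_eq_single i]
      · simp
      · intro b _ hb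
        simp [hb]
      · simp
    have hprod : ∀ (F : J ⊕ Unit → ℂ) (i : Fin r), ∏ s with own s = i.succ, F s =
        ∏ j : J with j.1 = i, F (Sum.inl j) := by
      intro F i
      rw [Finset.prod_filter, Fintype.prod_sum_type, Finset.prod_filter]
      have h1 : ∏ x : Unit, (if own (Sum.inr x) = i.succ then F (Sum.inr x) else 1) = 1 := by
        have : ¬ ((0 : Fin (r + 1)) = i.succ) := (Fin.succ_ne_zero i).symm
        simp [own, this]
      rw [h1, mul_one]
      refine Finset.prod_congr rfl fun j _ => ?_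
      simp [own]
    have hprod0 : ∀ (F : J ⊕ Unit → ℂ), ∏ s with own s = 0, F s = F (Sum.inr ()) := by
      intro F
      rw [Finset.prod_filter, Fintype.prod_sum_type]
      simp [own]
    have hsum : ∀ (i : Fin r), ∑ s with own s = i.succ, mult s = m i * e i := by
      intro i
      rw [Finset.sum_filter, Fintype.sum_sum_type]
      have h1 : ∑ x : Unit, (if own (Sum.inr x) = i.succ then mult (Sum.inr x) else 0) = 0 := by
        have : ¬ ((0 : Fin (r + 1)) = i.succ) := (Fin.succ_ne_zero i).symm
        simp [own, this]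
      rw [h1, add_zero]
      have h2 : ∑ j : J, (if own (Sum.inl j) = i.succ then mult (Sum.inl j) else 0) =
          ∑ j : J with j.1 = i, m i := by
        rw [Finset.sum_filter]
        refine Finset.sum_congr rfl fun j _ => ?_
        by_cases h : j.1 = i
        · simp [own, mult, h]
        · simp [own, mult, h]
      rw [h2, Finset.sum_const, hcardfib, smul_eq_mul, mul_comm]
    have hsum0 : ∑ s with own s = 0, mult s = d := by
      rw [Finset.sum_filter, Fintype.sum_sum_type]
      simp [own, mult]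
    obtain ⟨v, hv, c, hc⟩ := exists_line f' own mult (by
        rintro (j | j)
        · exact Nat.pos_of_ne_zero (hm0 _)
        · exact hd) (by
        intro i
        refine Fin.cases ?_ (fun i => ?_) i
        · rw [hsum0]
          exact hg
        · rw [hsum]
          exact hdeg i) (by
        have htot : ∑ s, mult s = ∑ i, m i * e i + d := by
          rw [← Finset.sum_fiberwise Finset.univ own mult, Fin.sum_univ_succ, hsum0,
            Finset.sum_congr rfl fun i _ => hsum i, add_comm]
        have h3 : ∑ i, m i * e i = ∑ i, (m i - 1) * e i + ∑ i, e i := by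
          rw [← Finset.sum_add_distrib]
          refine Finset.sum_congr rfl fun i _ => ?_
          obtain ⟨m', hm'⟩ : ∃ m', m i = m' + 1 := ⟨m i - 1, by have := hm0 i; omega⟩
          rw [hm', Nat.add_sub_cancel]
          ring
        rw [htot]
        simp only [J, Fintype.card_sum, Fintype.card_sigma, Fintype.card_fin, Fintype.card_unit]
        omega) p (by
        intro i
        refine Fin.cases ?_ (fun i => ?_) i
        · exact hgp
        · exact hp i)
    set c0 := c (Sum.inr ()) with hc0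
    obtain ⟨T, R, hT, hR, hnc, hR1, hR2, hT1⟩ : ∃ T R : ℂ → ℂ, Lau T ∧ Lau R ∧
        (∃ u u', u ≠ 0 ∧ u' ≠ 0 ∧ T u ≠ T u') ∧ (∀ u, u ≠ 0 → R u * (1 + c0 * T u) = 1) ∧
        (∀ u, u ≠ 0 → 1 + c0 * T u ≠ 0) ∧ T 1 = 0 := by
      by_cases h : c0 = 0
      · refine ⟨fun u => u - 1, fun _ => 1, lau_sub_one, Lau.const 1, ⟨1, 2, by norm_num,
          by norm_num, by norm_num⟩, fun u _ => by rw [h]; ring, fun u _ => by rw [h]; simp,
          by norm_num⟩
      · refine ⟨fun u => (u - 1) / c0, fun u => u⁻¹, (lau_sub_one.mul (Lau.const c0⁻¹)).congr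
          fun u _ => div_eq_mul_inv _ _, Lau.inv, ⟨1, 2, by norm_num, by norm_num, ?_⟩, ?_, ?_,
          by norm_num⟩
        · norm_num
          exact fun h0 => h h0.symm
        · intro u hu
          field_simp
          ring
        · intro u hu
          have : 1 + c0 * ((u - 1) / c0) = u := by field_simp; ring
          rw [this]
          exact hu
    refine ⟨v, T, fun i u => w0 i * ∏ j : J with j.1 = i, (1 + c (Sum.inl j) * T u),
      fun u => (eval p g)⁻¹ * R u ^ d, hv, hT, fun i => ?_, (Lau.const _).mul (hR.pow d), hnc,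
      fun u hu => ⟨fun i => ?_, ?_⟩, 1, one_ne_zero, hT1, fun i => by simp [hT1]⟩
    · exact (Lau.const _).mul (Lau.prod _ _ fun j => hT.lin 1 _)
    · have h1 := hc i.succ (T u)
      rw [hprod] at h1
      have h2 : f' i.succ = f i := rfl
      rw [h2] at h1
      rw [h1, mul_pow, hw0, ← Finset.prod_pow]
      congr 1
      refine Finset.prod_congr rfl fun j hj => ?_
      have hji : j.1 = i := by simpa using hj
      simp [mult, hji]
    · have h1 := hc 0 (T u)
      rw [hprod0] at h1
      have h2 : f' 0 = g := rfl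
      rw [h2] at h1
      have h3 := hR1 u hu
      show (eval p g)⁻¹ * R u ^ d * _ = 1
      rw [h1]
      have h4 : mult (Sum.inr ()) = d := rfl
      rw [h4]
      calc (eval p g)⁻¹ * R u ^ d * (eval p g * (1 + c0 * T u) ^ d) =
          ((eval p g)⁻¹ * eval p g) * (R u * (1 + c0 * T u)) ^ d := by rw [mul_pow]; ring
        _ = 1 := by rw [h3, inv_mul_cancel₀ hgp, one_pow, mul_one]

end Pool.Agent.H734R3.AF
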