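import Mathlib
import Pool.Agent.H159R3.Exp.BLV
import Pool.Agent.H734R3.AF.Core

/-!
# Integral points and entire curves on affine multi-cyclic covers
-/

set_option autoImplicit false

namespace Pool.Agent.H734R3.AF

open MvPolynomial Filter Pool.Agent.H734R3.LV
open scoped NumberField Topology

/-- the point with coordinates `x`, `w`, `z` -/
def pt {R : Type*} {n r : ℕ} (x : Fin n → R) (w : Fin r → R) (z : R) : Fin (n + r + 1) → R :=
  Fin.snoc (α := fun _ => R) (Fin.append x w) z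

/-- the equations `w i ^ m i = f i (x)` and `z * g (x) = 1` in the variables `x`, `w`, `z` -/
noncomputable def eqs {R : Type*} [CommRing R] {n r : ℕ} (m : Fin r → ℕ)
    (f : Fin r → MvPolynomial (Fin n) R) (g : MvPolynomial (Fin n) R) :
    Option (Fin r) → MvPolynomial (Fin (n + r + 1)) R
  | some i => X (Fin.natAdd n i).castSucc ^ m i -
      rename (fun j : Fin n => (Fin.castAdd r j).castSucc) (f i)
  | none => X (Fin.last (n + r)) * rename (fun j : Fin n => (Fin.castAdd r j).castSucc) g - 1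

@[simp] theorem pt_x {R : Type*} {n r : ℕ} (x : Fin n → R) (w : Fin r → R) (z : R) (j : Fin n) :
    pt x w z (Fin.castAdd r j).castSucc = x j := by
  simp [pt]

@[simp] theorem pt_w {R : Type*} {n r : ℕ} (x : Fin n → R) (w : Fin r → R) (z : R) (i : Fin r) :
    pt x w z (Fin.natAdd n i).castSucc = w i := by
  rw [pt, Fin.snoc_castSucc, Fin.append_right]

@[simp] theorem pt_z {R : Type*} {n r : ℕ} (x : Fin n → R) (w : Fin r → R) (z : R) :
    pt x w z (Fin.last (n + r)) = z := by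
  simp [pt]

theorem pt_eq {R : Type*} {n r : ℕ} (P : Fin (n + r + 1) → R) :
    pt (fun j => P (Fin.castAdd r j).castSucc) (fun i => P (Fin.natAdd n i).castSucc)
      (P (Fin.last (n + r))) = P := by
  funext l
  refine Fin.lastCases (pt_z _ _ _) (fun l => ?_) l
  refine Fin.addCases (fun j => pt_x _ _ _ j) (fun i => pt_w _ _ _ i) l

theorem eval₂_some {R S : Type*} [CommRing R] [CommRing S] (φ : R →+* S) {n r : ℕ} (m : Fin r → ℕ)
    (f : Fin r → MvPolynomial (Fin n) R) (g : MvPolynomial (Fin n) R)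
    (x : Fin n → S) (w : Fin r → S) (z : S) (i : Fin r) :
    eval₂ φ (pt x w z) (eqs m f g (some i)) = w i ^ m i - eval₂ φ x (f i) := by
  have h : (pt x w z) ∘ (fun j : Fin n => (Fin.castAdd r j).castSucc) = x :=
    funext fun j => pt_x x w z j
  rw [eqs, eval₂_sub, eval₂_pow, eval₂_X, eval₂_rename, h, pt_w]

theorem eval₂_none {R S : Type*} [CommRing R] [CommRing S] (φ : R →+* S) {n r : ℕ} (m : Fin r → ℕ)
    (f : Fin r → MvPolynomial (Fin n) R) (g : MvPolynomial (Fin n) R)
    (x : Fin n → S) (w : Fin r → S) (z : S) :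
    eval₂ φ (pt x w z) (eqs m f g none) = z * eval₂ φ x g - 1 := by
  have h : (pt x w z) ∘ (fun j : Fin n => (Fin.castAdd r j).castSucc) = x :=
    funext fun j => pt_x x w z j
  rw [eqs, eval₂_sub, eval₂_mul, eval₂_X, eval₂_rename, h, pt_z, eval₂_one]

theorem pow_nhds (c : ℂ) {m : ℕ} (hm : 0 < m) {s : Set ℂ} (hs : s ∈ 𝓝 c) :
    (fun y : ℂ => y ^ m) '' s ∈ 𝓝 (c ^ m) := by
  have ha : AnalyticAt ℂ (fun y : ℂ => y ^ m) c := analyticAt_id.pow m
  rcases ha.eventually_constant_or_nhds_le_map_nhds with h | h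
  · exfalso
    have h1 : {y : ℂ | y ^ m = c ^ m} ∈ 𝓝 c := h
    have h2 := infinite_of_mem_nhds c h1
    apply h2
    have h3 : (Polynomial.X ^ m - Polynomial.C (c ^ m) : Polynomial ℂ) ≠ 0 :=
      Polynomial.X_pow_sub_C_ne_zero hm _
    refine (Polynomial.finite_setOf_isRoot h3).subset fun y hy => ?_
    have hy' : y ^ m = c ^ m := hy
    simp [hy']
  · exact h (Filter.image_mem_map hs)

theorem dense {n r : ℕ} (m : Fin r → ℕ) (hm : ∀ i, 0 < m i) (f : Fin r → MvPolynomial (Fin n) ℂ)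
    (hf : ∀ i, f i ≠ 0) (g : MvPolynomial (Fin n) ℂ) (x : Fin n → ℂ) (w : Fin r → ℂ) (z : ℂ)
    (hw : ∀ i, w i ^ m i = eval x (f i)) (hz : z * eval x g = 1)
    (N : Set (Fin (n + r + 1) → ℂ)) (hN : N ∈ 𝓝 (pt x w z)) :
    ∃ x' w' z', pt x' w' z' ∈ N ∧ (∀ i, w' i ^ m i = eval x' (f i)) ∧ z' * eval x' g = 1 ∧
      ∀ i, eval x' (f i) ≠ 0 := by
  classical
  obtain ⟨ε, hε, hεN⟩ := Metric.mem_nhds_iff.1 hN
  have hF : ∏ i, f i ≠ 0 := Finset.prod_ne_zero_iff.2 fun i _ => hf i
  obtain ⟨y, hy⟩ : ∃ y, eval y (∏ i, f i) ≠ 0 := by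
    by_contra hcon
    push Not at hcon
    exact hF (MvPolynomial.funext fun y => by rw [hcon y, map_zero])
  set v : Fin n → ℂ := fun j => y j - x j with hv
  have hq : restr (∏ i, f i) x v ≠ 0 := by
    intro h0
    apply hy
    have h1 := restr_eval (∏ i, f i) x v 1
    have h2 : (fun j => x j + 1 * v j) = y := by
      funext j
      simp [hv]
    rw [h0, Polynomial.eval_zero, h2] at h1
    exact h1.symm
  have hev : ∀ᶠ t in 𝓝[≠] (0 : ℂ), ∀ i, eval (fun j => x j + t * v j) (f i) ≠ 0 := by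
    have h1 := nhdsNE_le_cofinite (0 : ℂ) (Polynomial.finite_setOf_isRoot hq).compl_mem_cofinite
    filter_upwards [h1] with t ht i hi
    apply ht
    show (restr (∏ i, f i) x v).eval t = 0
    rw [restr_eval, map_prod]
    exact Finset.prod_eq_zero (Finset.mem_univ i) hi
  have hcont : Continuous fun t : ℂ => (fun j => x j + t * v j : Fin n → ℂ) := by fun_prop
  have hc0 : (fun j => x j + 0 * v j : Fin n → ℂ) = x := by
    funext j
    simp
  have hce : ∀ P : MvPolynomial (Fin n) ℂ, Continuous fun t : ℂ =>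
      eval (fun j => x j + t * v j) P := fun P => (MvPolynomial.continuous_eval P).comp hcont
  have hg0 : eval x g ≠ 0 := by
    intro h
    rw [h, mul_zero] at hz
    exact zero_ne_one hz
  have hz' : z = (eval x g)⁻¹ := eq_inv_of_mul_eq_one_left hz
  have hA : ∀ᶠ t in 𝓝 (0 : ℂ), dist (fun j => x j + t * v j : Fin n → ℂ) x < ε := by
    have h1 := hcont.tendsto 0
    rw [hc0] at h1
    exact h1.eventually (Metric.ball_mem_nhds x hε)
  have hB : ∀ᶠ t in 𝓝 (0 : ℂ), ∀ i, ∃ w', dist w' (w i) < ε ∧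
      w' ^ m i = eval (fun j => x j + t * v j) (f i) := by
    rw [Filter.eventually_all]
    intro i
    have h1 := (hce (f i)).tendsto 0
    rw [hc0, ← hw i] at h1
    have h2 := h1.eventually (pow_nhds (w i) (hm i) (Metric.ball_mem_nhds (w i) hε))
    filter_upwards [h2] with t ht
    obtain ⟨w', hw', hw''⟩ := ht
    exact ⟨w', hw', hw''⟩
  have hC : ∀ᶠ t in 𝓝 (0 : ℂ), eval (fun j => x j + t * v j) g ≠ 0 ∧
      dist (eval (fun j => x j + t * v j) g)⁻¹ z < ε := by
    have h1 := (hce g).tendsto 0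
    rw [hc0] at h1
    have h2 := h1.inv₀ hg0
    rw [← hz'] at h2
    exact (h1.eventually_ne hg0).and (h2.eventually (Metric.ball_mem_nhds z hε))
  obtain ⟨t, h1, h2, h3, h4⟩ := (hev.and ((hA.and (hB.and hC)).filter_mono
    nhdsWithin_le_nhds)).exists
  choose w' hw' hw'' using h3
  refine ⟨_, w', (eval (fun j => x j + t * v j) g)⁻¹, hεN ?_, hw'', inv_mul_cancel₀ h4.1, h1⟩
  rw [Metric.mem_ball, dist_pi_lt_iff hε]
  intro l
  refine Fin.lastCases ?_ (fun l => ?_) l
  · rw [pt_z, pt_z]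
    exact h4.2
  · refine Fin.addCases (fun j => ?_) (fun i => ?_) l
    · rw [pt_x, pt_x]
      exact (dist_le_pi_dist _ x j).trans_lt h2
    · rw [pt_w, pt_w]
      exact hw' i

/-- Condition (i): every entire curve in `V`, given by `F`, lies in `V'`, given by `G`. -/
def EntireCurvesIn {K : Type} [Field K] {ι ι' : Type} {n : ℕ} (σ : K →+* ℂ)
    (F : ι → MvPolynomial (Fin n) (𝓞 K)) (G : ι' → MvPolynomial (Fin n) (𝓞 K)) : Prop :=
  ∀ f : ℂ → Fin n → ℂ, Differentiable ℂ f →
    (∀ z i, eval₂ (σ.comp (algebraMap (𝓞 K) K)) (f z) (F i) = 0) → (∃ z w, f z ≠ f w) →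
    ∀ z j, eval₂ (σ.comp (algebraMap (𝓞 K) K)) (f z) (G j) = 0

open Pool.Agent.H159R3.Exp in
/-- if every complex point of `V` lies in `V'` then the same holds for integral points -/
theorem finite_of_subset {K : Type} [Field K] [NumberField K] {ι ι' : Type} {n : ℕ} (σ : K →+* ℂ)
    (F : ι → MvPolynomial (Fin n) (𝓞 K)) (G : ι' → MvPolynomial (Fin n) (𝓞 K))
    (h : ∀ P : Fin n → ℂ, (∀ i, eval₂ (σ.comp (algebraMap (𝓞 K) K)) P (F i) = 0) →
      ∀ j, eval₂ (σ.comp (algebraMap (𝓞 K) K)) P (G j) = 0) : FinitelyManyIntegral F G := by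
  intro L _ _ _ S _
  convert Set.finite_empty
  rw [Set.diff_eq_empty]
  rintro P ⟨hP, hF⟩
  refine ⟨hP, fun j => ?_⟩
  letI : Algebra K ℂ := σ.toAlgebra
  haveI : Algebra.IsAlgebraic K L := by
    haveI := NumberField.to_finiteDimensional (K := L)
    haveI : IsScalarTower ℚ K L := by infer_instance
    haveI : FiniteDimensional K L := FiniteDimensional.right ℚ K L
    infer_instance
  let τ : L →ₐ[K] ℂ := IsAlgClosed.lift
  have hτ : ∀ Q : MvPolynomial (Fin n) (𝓞 K),
      τ (eval₂ ((algebraMap K L).comp (algebraMap (𝓞 K) K)) P Q) =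
        eval₂ (σ.comp (algebraMap (𝓞 K) K)) (fun j => τ (P j)) Q := by
    intro Q
    have h1 : (τ : L →+* ℂ).comp ((algebraMap K L).comp (algebraMap (𝓞 K) K)) =
        σ.comp (algebraMap (𝓞 K) K) := by
      ext a
      exact τ.commutes _
    have h2 := MvPolynomial.hom_eval₂ Q ((algebraMap K L).comp (algebraMap (𝓞 K) K))
      (τ : L →+* ℂ) P
    rw [h1] at h2
    exact h2
  have h3 := h (fun j => τ (P j)) (fun i => by rw [← hτ, hF i, map_zero]) j
  rw [← hτ] at h3
  exact (map_eq_zero_iff (τ : L →+* ℂ) (τ : L →+* ℂ).injective).1 h3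

theorem eval_aeval_X {l : ℕ} (A : Polynomial ℂ) (Q : Fin l → ℂ) (i : Fin l) :
    eval Q (Polynomial.aeval (X i : MvPolynomial (Fin l) ℂ) A) = A.eval (Q i) := by
  induction A using Polynomial.induction_on' with
  | add p q hp hq => rw [map_add, map_add, hp, hq, Polynomial.eval_add]
  | monomial n a => simp

/-- the point `(ζ, exp ζ, exp (-ζ))` -/
noncomputable def ex (ζ : ℂ) : Fin (2 + 1) → ℂ :=
  Fin.cons ζ fun i => Complex.exp ((![fun y : ℂ => y, fun y : ℂ => -y] : Fin 2 → ℂ → ℂ) i ζ)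

theorem Lau.expPoly {T : ℂ → ℂ} (hT : Lau T) : ∃ P : MvPolynomial (Fin (2 + 1)) ℂ, ∀ ζ : ℂ,
    T (Complex.exp ζ) = eval (ex ζ) P := by
  obtain ⟨A, k, hA⟩ := hT
  refine ⟨Polynomial.aeval (X 1 : MvPolynomial (Fin (2 + 1)) ℂ) A * X 2 ^ k, fun ζ => ?_⟩
  rw [hA _ (Complex.exp_ne_zero ζ), map_mul, map_pow, eval_X, eval_aeval_X]
  have h2 : ex ζ 1 = Complex.exp ζ := rfl
  have h3 : ex ζ 2 = (Complex.exp ζ)⁻¹ := by
    rw [← Complex.exp_neg]
    rfl
  rw [h2, h3]

theorem tdeg_map {R S : Type*} [CommRing R] [CommRing S] (φ : R →+* S) {n : ℕ}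
    (f : MvPolynomial (Fin n) R) : (map φ f).totalDegree ≤ f.totalDegree :=
  Finset.sup_mono (support_map_subset φ f)

open Pool.Agent.H159R3.Exp in
/-- (i) and (ii) are equivalent -/
theorem blv {K : Type} [Field K] [NumberField K] (σ : K →+* ℂ) {n r : ℕ} (hn : 1 ≤ n)
    (m : Fin r → ℕ) (hm : ∀ i, 2 ≤ m i) (f : Fin r → MvPolynomial (Fin n) (𝓞 K))
    (g : MvPolynomial (Fin n) (𝓞 K)) (hf : ∀ i, f i ≠ 0)
    (e : Fin r → ℕ) (hdeg : ∀ i, (f i).totalDegree ≤ m i * e i)
    (he : ∑ i, (m i - 1) * e i + g.totalDegree ≤ n)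
    (heq : ∑ i, (m i - 1) * e i = n → ∃ i, e i ≠ 0 ∧ 2 ∣ m i)
    {ι' : Type} (G : ι' → MvPolynomial (Fin (n + r + 1)) (𝓞 K)) :
    (FinitelyManyIntegral (eqs m f g) G ↔ EntireCurvesIn σ (eqs m f g) G) ∧
    (EntireCurvesIn σ (eqs m f g) G ↔ ∀ P : Fin (n + r + 1) → ℂ,
      (∀ i, eval₂ (σ.comp (algebraMap (𝓞 K) K)) P (eqs m f g i) = 0) →
        ∀ j, eval₂ (σ.comp (algebraMap (𝓞 K) K)) P (G j) = 0) := by
  classical
  set φ : 𝓞 K →+* ℂ := σ.comp (algebraMap (𝓞 K) K) with hφ
  have hinj : Function.Injective φ :=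
    σ.injective.comp (FaithfulSMul.algebraMap_injective (𝓞 K) K)
  by_cases hV : ∀ P : Fin (n + r + 1) → ℂ, (∀ i, eval₂ φ P (eqs m f g i) = 0) →
      ∀ j, eval₂ φ P (G j) = 0
  · have h1 : EntireCurvesIn σ (eqs m f g) G := fun _ _ hF _ z j => hV _ (hF z) j
    exact ⟨⟨fun _ => h1, fun _ => finite_of_subset σ _ _ hV⟩, fun _ => hV, fun _ => h1⟩
  have hV' := hV
  push Not at hV
  obtain ⟨P, hP, j, hj⟩ := hV
  -- a curve outside V'
  obtain ⟨c, hc1, hc2, hc3, hc4⟩ : ∃ c : ℂ → Fin (n + r + 1) → ℂ, ExpType c ∧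
      (∀ z i, eval₂ φ (c z) (eqs m f g i) = 0) ∧ (∃ z w, c z ≠ c w) ∧
      ∃ z, eval₂ φ (c z) (G j) ≠ 0 := by
    rw [← pt_eq P] at hP hj
    set x := fun j : Fin n => P (Fin.castAdd r j).castSucc with hx
    set w := fun i : Fin r => P (Fin.natAdd n i).castSucc with hw
    set z := P (Fin.last (n + r)) with hz
    have h1 : ∀ i, w i ^ m i = eval x (map φ (f i)) := by
      intro i
      have := hP (some i)
      rw [eval₂_some, eval₂_eq_eval_map] at this
      exact sub_eq_zero.1 this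
    have h2 : z * eval x (map φ g) = 1 := by
      have := hP none
      rw [eval₂_none, eval₂_eq_eval_map] at this
      exact sub_eq_zero.1 this
    obtain ⟨x', w', z', h3, h4, h5, h6⟩ := dense m (fun i => by have := hm i; omega)
      (fun i => map φ (f i)) (fun i h => hf i ((map_eq_zero_iff _ (map_injective φ hinj)).1 h))
      (map φ g) x w z h1 h2 {Q | eval Q (map φ (G j)) ≠ 0}
      (((MvPolynomial.continuous_eval (map φ (G j))).isOpen_preimage _ isOpen_compl_singleton
        ).mem_nhds (by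
          show eval _ _ ≠ 0
          rw [← eval₂_eq_eval_map]
          exact hj))
    have h7 : eval x' (map φ g) ≠ 0 := by
      intro h
      rw [h, mul_zero] at h5
      exact zero_ne_one h5
    obtain ⟨v, T, Y, Z, hv, hT, hY, hZ, ⟨u, u', hu, hu', hTu⟩, heqs, u0, hu0, hTu0, hYu0⟩ :=
      exists_torus hn m hm (fun i => map φ (f i)) (map φ g) e g.totalDegree
        (fun i => (tdeg_map φ (f i)).trans (hdeg i)) (tdeg_map φ g) he heq x' h6 h7
        w' h4
    obtain ⟨PT, hPT⟩ := hT.expPoly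
    choose PY hPY using fun i => (hY i).expPoly
    obtain ⟨PZ, hPZ⟩ := hZ.expPoly
    set c : ℂ → Fin (n + r + 1) → ℂ := fun ζ => pt (fun j => x' j + T (Complex.exp ζ) * v j)
      (fun i => Y i (Complex.exp ζ)) (Z (Complex.exp ζ)) with hc
    have hcP : ∀ ζ l, c ζ l = eval (ex ζ) (pt (fun j => C (x' j) + PT * C (v j)) PY PZ l) := by
      intro ζ l
      refine Fin.lastCases ?_ (fun l => ?_) l
      · rw [hc]
        simp only [pt_z]
        exact hPZ ζ
      · refine Fin.addCases (fun j => ?_) (fun i => ?_) l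
        · rw [hc]
          simp only [pt_x, map_add, map_mul, eval_C]
          rw [hPT]
        · rw [hc]
          simp only [pt_w]
          exact hPY i ζ
    have hgd : ∀ i : Fin 2, Differentiable ℂ
        ((![fun y : ℂ => y, fun y : ℂ => -y] : Fin 2 → ℂ → ℂ) i) := by
      intro i
      fin_cases i
      · exact differentiable_id
      · exact differentiable_id.neg
    have hexp : ExpPoly c := ⟨2, ![fun y : ℂ => y, fun y : ℂ => -y], _, hgd, fun ζ l => hcP ζ l⟩
    have hexd : Differentiable ℂ ex := by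
      rw [differentiable_pi]
      intro l
      refine Fin.cases ?_ (fun i => ?_) l
      · exact differentiable_id
      · exact (hgd i).cexp
    have hcd : Differentiable ℂ c := by
      rw [differentiable_pi]
      intro l
      have h8 := differentiable_eval hexd (pt (fun j => C (x' j) + PT * C (v j)) PY PZ l)
      have h8' : (fun ζ => c ζ l) = fun ζ => eval (ex ζ)
        (pt (fun j => C (x' j) + PT * C (v j)) PY PZ l) := funext fun ζ => hcP ζ l
      rw [h8']
      exact h8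
    refine ⟨c, ⟨hcd, fun ζ => ζ, differentiable_id, ⟨0, 1, zero_ne_one⟩, hexp⟩, fun ζ i => ?_,
      ⟨Complex.log u, Complex.log u', fun h => ?_⟩, Complex.log u0, ?_⟩
    · have h8 := heqs (Complex.exp ζ) (Complex.exp_ne_zero ζ)
      rcases i with _ | i
      · rw [hc]
        simp only
        rw [eval₂_none, eval₂_eq_eval_map, h8.2, sub_self]
      · rw [hc]
        simp only
        rw [eval₂_some, eval₂_eq_eval_map, h8.1 i, sub_self]
    · obtain ⟨l, hl⟩ := Function.ne_iff.1 hv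
      have h8 := congrFun h (Fin.castAdd r l).castSucc
      rw [hc] at h8
      simp only [pt_x, Complex.exp_log hu, Complex.exp_log hu'] at h8
      exact hTu (mul_right_cancel₀ hl (add_left_cancel h8))
    · have h8 : c (Complex.log u0) = pt x' w' z' := by
        have h9 := (heqs u0 hu0).2
        have h10 : (fun j => x' j + T u0 * v j) = x' := by
          funext j
          rw [hTu0]
          ring
        rw [h10] at h9
        have h11 : Z u0 = z' := mul_right_cancel₀ h7 (h9.trans h5.symm)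
        have h12 : (fun i => Y i u0) = w' := funext hYu0
        rw [hc]
        simp only [Complex.exp_log hu0]
        rw [h10, h11, h12]
      rw [h8, eval₂_eq_eval_map]
      exact h3
  obtain ⟨z, hz⟩ := hc4
  have h1 : ¬ FinitelyManyIntegral (eqs m f g) G := fun h =>
    hz (main _ _ h σ c hc1 hc2 hc3 z j)
  have h2 : ¬ EntireCurvesIn σ (eqs m f g) G := fun h => hz (h c hc1.1 hc2 hc3 z j)
  exact ⟨⟨fun h => absurd h h1, fun h => absurd h h2⟩, fun h => absurd h h2,
    fun h => absurd h hV'⟩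

end Pool.Agent.H734R3.AF
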